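import Pool.Agent.TH80.OMS.Sym2

/-!
# `Ω`-stability and Axiom A for diffeomorphisms commuting with a compact connected Lie group

Let `F` be `Ω`-stable in `Diff^r(N)`, `1 ≤ r ≤ ∞`, and let `F` commute with a smooth action of a
compact connected Lie group `G` on `N`.

* The relative periodic points of `F` are periodic and fixed by `G`.
* If `F` has arbitrarily `C^r`-small `G`-equivariant perturbations whose relative periodic points are
  dense in the nonwandering set, then `Ω(F)` is the closure of the set of the periodic points and is
  fixed by `G` pointwise. If moreover `G` acts near each of its fixed points linearly and the tangent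
  space is spanned by spherical subspaces, then `Ω(F)` is finite and hyperbolic (Axiom A).
* The density holds if the orbit space embeds into the line (for instance cohomogeneity one actions
  on simply connected manifolds); then `Ω(F)` is finite.

Written by helper80. Definitions: `Pool/Agent/TH80/OMS/Defs.lean`, `Pool/Agent/TH80/OMS/SymDefs.lean`,
`Pool/Agent/TH80/CLX/Defs.lean`, `Pool/Agent/H718R2/G0.lean` (strong topology).
-/

set_option autoImplicit false

open scoped Manifold ContDiff Topology

universe u

namespace Pool.Agent.Results.MP_4a0782_an.SymmetricDiffeos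

open Pool.Agent.H718R2.G Pool.Agent.TH80.CLX Pool.Agent.TH80.OMS

theorem result (n : ℕ) (N : Type u) [TopologicalSpace N] [T2Space N] [CompactSpace N]
    [ChartedSpace (V n) N] [IsManifold (𝓡 n) ∞ N] (r : ℕ∞) (hr : 1 ≤ r) (F : DiffM n N r)
    (hF : OmegaStable n N r F) (G : Type) [Group G] [TopologicalSpace G] [CompactSpace G]
    [PreconnectedSpace G] (q : ℕ) (ι : G →* Matrix (Fin q) (Fin q) ℂ) (act : G → N → N)
    (hact : IsLieAction n N ι Set.univ act) (hcom : ∀ g y, F (act g y) = act g (F y)) :
    (∀ y ∈ RelPer F act, y ∈ Per F ∧ ∀ g, act g y = y) ∧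
    (RelDense n N r F act → OmegaFixed F act ∧
      ((∀ p, (∀ g, act g p = p) → IsSpherical n act p) → FiniteHyp n F)) ∧
    (ConnectedSpace N → IntervalOrbits act → RelDense n N r F act ∧ (Omega F).Finite) :=
  sym_main hr hF hact hcom

end Pool.Agent.Results.MP_4a0782_an.SymmetricDiffeos
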